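import Mathlib

/-!
# The monoid `End(ℕ,<)` has no finest Polish semigroup topology (MP_0c7c8f_al, Q1)
-/

namespace Pool.Agent.Results.MP_0c7c8f_al.NoFinest

open Set Filter Topology
open scoped ENNReal

/-- `End(ℕ,<)`: the strictly increasing maps `ℕ → ℕ`. -/
def EndN : Type := {f : ℕ → ℕ // StrictMono f}

/-- Multiplication is composition of maps. -/
instance : Mul EndN := ⟨fun f g => ⟨f.1 ∘ g.1, f.2.comp g.2⟩⟩

/-- `T` is a Polish semigroup topology on `End(ℕ,<)`: it is Polish and multiplication is jointly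
continuous. -/
def IsPolishSemigroupTopology (T : TopologicalSpace EndN) : Prop :=
  @PolishSpace EndN T ∧
    @Continuous (EndN × EndN) EndN (@instTopologicalSpaceProd EndN EndN T T) T
      (fun p => p.1 * p.2)

/-! ### weights -/

open Classical in
/-- number of `j < n` with `log₄ j ∈ K` -/
noncomputable def a (K : Set ℕ) (n : ℕ) : ℕ := ((Finset.range n).filter (fun j => Nat.log 4 j ∈ K)).card

/-- the weight -/
noncomputable def w (K : Set ℕ) (n : ℕ) : ℝ≥0∞ := (2⁻¹ : ℝ≥0∞) ^ (a K (Nat.log 2 n / 2))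

open Classical in
lemma a_mono (K : Set ℕ) : Monotone (a K) := by
  intro m n h
  unfold a
  exact Finset.card_le_card (Finset.filter_subset_filter _ (Finset.range_subset_range.2 h))

open Classical in
lemma a_succ (K : Set ℕ) (n : ℕ) : a K (n+1) ≤ a K n + 1 := by
  unfold a
  refine (Finset.card_le_card (t := insert n _) ?_).trans (Finset.card_insert_le n _)
  intro j hj
  rw [Finset.mem_filter, Finset.mem_range] at hj
  rw [Finset.mem_insert, Finset.mem_filter, Finset.mem_range]
  by_cases h : j = n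
  · exact Or.inl h
  · exact Or.inr ⟨by omega, hj.2⟩

open Classical in
lemma a_le (K : Set ℕ) (n : ℕ) : a K n ≤ n := by
  unfold a
  exact (Finset.card_filter_le _ _).trans (by simp)

lemma half_pow_anti {i j : ℕ} (h : i ≤ j) : (2⁻¹ : ℝ≥0∞) ^ j ≤ (2⁻¹ : ℝ≥0∞) ^ i :=
  pow_le_pow_right_of_le_one' (by simp) h

lemma w_anti (K : Set ℕ) {m n : ℕ} (h : m ≤ n) : w K n ≤ w K m := by
  unfold w
  exact half_pow_anti (a_mono K (Nat.div_le_div_right (Nat.log_mono_right h)))

lemma w_le_one (K : Set ℕ) (n : ℕ) : w K n ≤ 1 := by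
  unfold w; exact pow_le_one₀ (by simp) (by simp)

lemma w_ne_top (K : Set ℕ) (n : ℕ) : w K n ≠ ∞ := ne_top_of_le_ne_top (by simp) (w_le_one K n)

lemma w_double (K : Set ℕ) {m : ℕ} (hm : 1 ≤ m) : w K m ≤ 2 * w K (2*m) := by
  unfold w
  have h1 : Nat.log 2 (2*m) = Nat.log 2 m + 1 := by
    rw [mul_comm]; exact Nat.log_mul_base (by norm_num) (by omega)
  have h2 : a K (Nat.log 2 (2*m) / 2) ≤ a K (Nat.log 2 m / 2) + 1 := by
    rw [h1]
    refine (a_mono K (show (Nat.log 2 m + 1)/2 ≤ Nat.log 2 m / 2 + 1 by omega)).trans (a_succ K _)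
  calc (2⁻¹ : ℝ≥0∞) ^ (a K (Nat.log 2 m / 2))
      = 2 * (2⁻¹ : ℝ≥0∞) ^ (a K (Nat.log 2 m / 2) + 1) := by
        rw [pow_succ, mul_comm (_ ^ _), ← mul_assoc, ENNReal.mul_inv_cancel (by simp) (by simp), one_mul]
    _ ≤ 2 * (2⁻¹ : ℝ≥0∞) ^ (a K (Nat.log 2 (2*m) / 2)) := by
        exact mul_le_mul_right (half_pow_anti h2) _

/-- If `o ≥ 1` is large compared with `M` then `o · w(2o) > M`. -/
lemma w_small (K : Set ℕ) (M o : ℕ) (h : (o : ℝ≥0∞) * w K (2*o) ≤ M) : o ≤ 2 * M^2 := by
  rcases Nat.eq_zero_or_pos o with rfl | ho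
  · simp
  set L := Nat.log 2 (2*o) / 2 with hL
  have h1 : (2⁻¹ : ℝ≥0∞) ^ L ≤ w K (2*o) := half_pow_anti (a_le K _)
  have h2 : (o : ℝ≥0∞) ≤ M * 2 ^ L := by
    have h3 : (o : ℝ≥0∞) * (2⁻¹ : ℝ≥0∞) ^ L ≤ M := le_trans (by gcongr) h
    calc (o : ℝ≥0∞) = (o : ℝ≥0∞) * (2⁻¹ : ℝ≥0∞) ^ L * 2 ^ L := by
          rw [mul_assoc, ← mul_pow, ENNReal.inv_mul_cancel (by simp) (by simp), one_pow, mul_one]
      _ ≤ M * 2 ^ L := by gcongr
  have h3 : o ≤ M * 2 ^ L := by exact_mod_cast h2
  have h4 : 2 ^ (2 * L) ≤ 2 * o := by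
    have : 2 ^ (2*L) ≤ 2 ^ Nat.log 2 (2*o) := Nat.pow_le_pow_right (by norm_num) (by omega)
    exact this.trans (Nat.pow_log_le_self 2 (by omega))
  have h5 : o * o ≤ M^2 * (2 * o) := by
    calc o * o ≤ (M * 2^L) * (M * 2^L) := Nat.mul_le_mul h3 h3
      _ = M^2 * 2^(2*L) := by ring
      _ ≤ M^2 * (2*o) := Nat.mul_le_mul_left _ h4
  nlinarith

/-! ### the function `W` -/

open Classical in
/-- total weight of the complement of the image -/
noncomputable def W (K : Set ℕ) (f : EndN) : ℝ≥0∞ := ∑' n, if n ∈ range f.1 then 0 else w K n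

open Classical in
/-- the correction term -/
noncomputable def V (K : Set ℕ) (f h : EndN) : ℝ≥0∞ := ∑' m, if m ∈ range h.1 then 0 else w K (f.1 m)

lemma W_mul (K : Set ℕ) (f h : EndN) : W K (f * h) = W K f + V K f h := by
  classical
  have hinj : Function.Injective f.1 := f.2.injective
  have hV : V K f h = ∑' n, (if n ∈ f.1 '' (range h.1)ᶜ then w K n else 0) := by
    unfold V
    rw [← hinj.tsum_eq (f := fun n => if n ∈ f.1 '' (range h.1)ᶜ then w K n else 0)]
    · apply tsum_congr
      intro m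
      by_cases hm : m ∈ range h.1
      · rw [if_pos hm, if_neg]
        rintro ⟨x, hx, hxm⟩
        exact hx ((hinj hxm) ▸ hm)
      · rw [if_neg hm, if_pos ⟨m, hm, rfl⟩]
    · intro n hn
      simp only [Function.mem_support, ne_eq, ite_eq_right_iff, Classical.not_imp] at hn
      obtain ⟨⟨x, _, hx⟩, _⟩ := hn
      exact ⟨x, hx⟩
  rw [hV]
  unfold W
  rw [← ENNReal.tsum_add]
  apply tsum_congr
  intro n
  have hfh : (f * h).1 = f.1 ∘ h.1 := rfl
  rw [hfh]
  by_cases h1 : n ∈ range f.1
  · obtain ⟨m, rfl⟩ := h1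
    by_cases h2 : m ∈ range h.1
    · obtain ⟨k, rfl⟩ := h2
      have e1 : f.1 (h.1 k) ∈ range (f.1 ∘ h.1) := ⟨k, rfl⟩
      have e2 : f.1 (h.1 k) ∈ range f.1 := ⟨_, rfl⟩
      have e3 : f.1 (h.1 k) ∉ f.1 '' (range h.1)ᶜ := by
        rintro ⟨x, hx, hxm⟩
        exact hx ((hinj hxm) ▸ ⟨k, rfl⟩)
      rw [if_pos e1, if_pos e2, if_neg e3, add_zero]
    · have e1 : f.1 m ∉ range (f.1 ∘ h.1) := by
        rintro ⟨k, hk⟩
        exact h2 ⟨k, hinj hk⟩
      have e2 : f.1 m ∈ range f.1 := ⟨_, rfl⟩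
      have e3 : f.1 m ∈ f.1 '' (range h.1)ᶜ := ⟨m, h2, rfl⟩
      rw [if_neg e1, if_pos e2, if_pos e3, zero_add]
  · have e1 : n ∉ range (f.1 ∘ h.1) := by
      rintro ⟨k, hk⟩
      exact h1 ⟨_, hk⟩
    have e3 : n ∉ f.1 '' (range h.1)ᶜ := by
      rintro ⟨x, _, hx⟩
      exact h1 ⟨x, hx⟩
    rw [if_neg e1, if_neg h1, if_neg e3, add_zero]

lemma le_apply (f : EndN) (m : ℕ) : m ≤ f.1 m := f.2.le_apply

lemma V_le (K : Set ℕ) (f h : EndN) : V K f h ≤ W K h := by
  classical
  unfold V W
  apply ENNReal.tsum_le_tsum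
  intro m
  split_ifs
  · exact le_rfl
  · exact w_anti K (le_apply f m)

/-- number of omitted points below `f m` -/
lemma omitted (K : Set ℕ) (f : EndN) (m : ℕ) : ((f.1 m - m : ℕ) : ℝ≥0∞) * w K (f.1 m) ≤ W K f := by
  classical
  set s := (Finset.range (f.1 m)) \ (Finset.image f.1 (Finset.range m)) with hs
  have hcard : f.1 m - m ≤ s.card := by
    have := Finset.le_card_sdiff (Finset.image f.1 (Finset.range m)) (Finset.range (f.1 m))
    have h2 : (Finset.image f.1 (Finset.range m)).card ≤ m := Finset.card_image_le.trans (by simp)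
    simp only [Finset.card_range] at this
    rw [← hs] at this
    omega
  have hs' : ∀ n ∈ s, n ∉ range f.1 ∧ n ≤ f.1 m := by
    intro n hn
    rw [hs, Finset.mem_sdiff, Finset.mem_range, Finset.mem_image] at hn
    refine ⟨?_, hn.1.le⟩
    rintro ⟨x, rfl⟩
    exact hn.2 ⟨x, Finset.mem_range.2 (f.2.lt_iff_lt.1 hn.1), rfl⟩
  calc ((f.1 m - m : ℕ) : ℝ≥0∞) * w K (f.1 m) ≤ (s.card : ℝ≥0∞) * w K (f.1 m) := by gcongr
    _ = ∑ n ∈ s, w K (f.1 m) := by rw [Finset.sum_const, nsmul_eq_mul]
    _ ≤ ∑ n ∈ s, (if n ∈ range f.1 then 0 else w K n) := by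
        apply Finset.sum_le_sum
        intro n hn
        rw [if_neg (hs' n hn).1]
        exact w_anti K (hs' n hn).2
    _ ≤ W K f := ENNReal.sum_le_tsum s

lemma W_top (K : Set ℕ) (f h : EndN) (hf : W K f ≠ ∞) (hh : W K h = ∞) : V K f h = ∞ := by
  classical
  obtain ⟨M, hM⟩ := ENNReal.exists_nat_gt hf
  set m0 := 2 * M^2 + 1 with hm0
  have key : ∀ m, m0 ≤ m → w K m ≤ 2 * w K (f.1 m) := by
    intro m hm
    have h1 : f.1 m ≤ 2 * m := by
      by_contra hcon
      push Not at hcon
      set o := f.1 m - m with ho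
      have h2 : f.1 m ≤ 2 * o := by omega
      have h3 : (o : ℝ≥0∞) * w K (2*o) ≤ M := by
        calc (o : ℝ≥0∞) * w K (2*o) ≤ (o : ℝ≥0∞) * w K (f.1 m) := by gcongr; exact w_anti K h2
          _ ≤ W K f := omitted K f m
          _ ≤ M := hM.le
      have := w_small K M o h3
      omega
    calc w K m ≤ 2 * w K (2*m) := w_double K (by omega)
      _ ≤ 2 * w K (f.1 m) := by gcongr; exact w_anti K h1
  by_contra hV
  have h1 : W K h ≤ (∑ m ∈ Finset.range m0, w K m) + 2 * V K f h := by
    have h2 : ∑ m ∈ Finset.range m0, w K m = ∑' m, (if m < m0 then w K m else 0) := by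
      rw [tsum_eq_sum (s := Finset.range m0)]
      · apply Finset.sum_congr rfl
        intro m hm
        rw [if_pos (Finset.mem_range.1 hm)]
      · intro m hm
        rw [if_neg]
        simpa using hm
    rw [h2]
    unfold W V
    rw [← ENNReal.tsum_mul_left, ← ENNReal.tsum_add]
    apply ENNReal.tsum_le_tsum
    intro m
    by_cases h3 : m ∈ range h.1
    · simp [h3]
    · rw [if_neg h3, if_neg h3]
      by_cases h4 : m < m0
      · rw [if_pos h4]; exact le_self_add
      · rw [if_neg h4, zero_add]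
        exact key m (by omega)
  rw [hh] at h1
  have h3 : (∑ m ∈ Finset.range m0, w K m) + 2 * V K f h ≠ ∞ := by
    apply ENNReal.add_ne_top.2
    refine ⟨?_, ENNReal.mul_ne_top (by simp) hV⟩
    exact (ENNReal.sum_ne_top).2 (fun m _ => w_ne_top K m)
  exact h3 (top_le_iff.1 h1)

/-! ### G_δ subsets of Polish spaces -/

lemma polish_of_isGδ {X : Type*} [TopologicalSpace X] [PolishSpace X] {s : Set X} (hs : IsGδ s) :
    PolishSpace s := by
  obtain ⟨U, hU, rfl⟩ := isGδ_iff_eq_iInter_nat.1 hs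
  haveI : ∀ n, PolishSpace (U n) := fun n => (hU n).polishSpace
  let φ : (⋂ n, U n : Set X) → (∀ n, U n) := fun x n => ⟨x.1, mem_iInter.1 x.2 n⟩
  have hφc : Continuous φ := by
    apply continuous_pi
    intro n
    exact Continuous.subtype_mk continuous_subtype_val _
  have hemb : IsEmbedding φ := by
    have h1 : IsEmbedding ((fun y : ∀ n, U n => ((y 0 : U 0) : X)) ∘ φ) := by
      exact IsEmbedding.subtypeVal
    exact IsEmbedding.of_comp hφc (by fun_prop) h1
  have hcl : IsClosedEmbedding φ := by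
    refine ⟨hemb, ?_⟩
    have : range φ = ⋂ n, {y : ∀ n, U n | ((y n : U n) : X) = ((y 0 : U 0) : X)} := by
      ext y
      simp only [mem_range, mem_iInter, mem_setOf_eq]
      constructor
      · rintro ⟨x, rfl⟩ n
        rfl
      · intro h
        refine ⟨⟨(y 0).1, mem_iInter.2 (fun n => ?_)⟩, ?_⟩
        · rw [← h n]; exact (y n).2
        · funext n
          exact Subtype.ext (h n).symm
    rw [this]
    apply isClosed_iInter
    intro n
    exact isClosed_eq (by fun_prop) (by fun_prop)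
  exact hcl.polishSpace

/-! ### topologies -/

/-- the pointwise topology -/
instance topPt : TopologicalSpace EndN := inferInstanceAs (TopologicalSpace {f : ℕ → ℕ // StrictMono f})

lemma isClosed_strictMono : IsClosed {f : ℕ → ℕ | StrictMono f} := by
  have : {f : ℕ → ℕ | StrictMono f} = ⋂ n, {f : ℕ → ℕ | f n < f (n+1)} := by
    ext f
    simp only [mem_setOf_eq, mem_iInter]
    exact ⟨fun h n => h (Nat.lt_succ_self n), strictMono_nat_of_lt_succ⟩
  rw [this]
  apply isClosed_iInter
  intro n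
  have : Continuous (fun f : ℕ → ℕ => (f n, f (n+1))) := by fun_prop
  exact (isClosed_discrete {p : ℕ × ℕ | p.1 < p.2}).preimage this

instance : PolishSpace EndN :=
  (isClosed_strictMono.polishSpace : PolishSpace {f : ℕ → ℕ // StrictMono f})

lemma continuous_val : Continuous (fun f : EndN => f.1) := continuous_subtype_val

lemma ev (f0 : EndN) (N : ℕ) : ∀ᶠ f in 𝓝 f0, ∀ m ≤ N, f.1 m = f0.1 m := by
  have h : ∀ m, ∀ᶠ f in 𝓝 f0, f.1 m = f0.1 m := by
    intro m
    have hc : Continuous (fun f : EndN => f.1 m) := (continuous_apply m).comp continuous_val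
    have := hc.continuousAt (x := f0)
    unfold ContinuousAt at this
    rw [nhds_discrete ℕ, tendsto_pure] at this
    exact this
  have h2 : ∀ᶠ f in 𝓝 f0, ∀ m ∈ Finset.range (N+1), f.1 m = f0.1 m := by
    rw [Filter.eventually_all_finset]
    intro m _
    exact h m
  filter_upwards [h2] with f hf m hm
  exact hf m (Finset.mem_range.2 (by omega))

lemma range_congr {f f0 : EndN} {N : ℕ} (h : ∀ m ≤ N, f.1 m = f0.1 m) {n : ℕ} (hn : n ≤ N) :
    n ∈ range f.1 ↔ n ∈ range f0.1 := by
  constructor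
  · rintro ⟨m, hm⟩
    have : m ≤ n := hm ▸ le_apply f m
    exact ⟨m, by rw [← h m (by omega)]; exact hm⟩
  · rintro ⟨m, hm⟩
    have : m ≤ n := hm ▸ le_apply f0 m
    exact ⟨m, by rw [h m (by omega)]; exact hm⟩

lemma lsc_W (K : Set ℕ) : LowerSemicontinuous (W K) := by
  classical
  intro f0 c hc
  have hc' : c < W K f0 := hc
  unfold W at hc'
  rw [ENNReal.tsum_eq_iSup_sum, lt_iSup_iff] at hc'
  obtain ⟨s, hs⟩ := hc'
  filter_upwards [ev f0 (s.sup id)] with f hf
  change c < W K f
  refine lt_of_lt_of_le hs ?_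
  have : ∑ n ∈ s, (if n ∈ range f0.1 then 0 else w K n) = ∑ n ∈ s, (if n ∈ range f.1 then 0 else w K n) := by
    apply Finset.sum_congr rfl
    intro n hn
    have := range_congr hf (n := n) (Finset.le_sup (f := id) hn)
    simp only [this]
  rw [this]
  exact ENNReal.sum_le_tsum s

/-- the graph of `W` -/
def G (K : Set ℕ) : Set (EndN × ℝ≥0∞) := {p | W K p.1 = p.2}

lemma isGδ_G (K : Set ℕ) : IsGδ (G K) := by
  have h1 : IsClosed {p : EndN × ℝ≥0∞ | W K p.1 ≤ p.2} :=
    lowerSemicontinuous_iff_isClosed_epigraph.1 (lsc_W K)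
  have h2 : G K = {p : EndN × ℝ≥0∞ | W K p.1 ≤ p.2} ∩
      ⋂ q : ℚ, ({p : EndN × ℝ≥0∞ | p.2 ≤ ENNReal.ofReal q} ∪ {p : EndN × ℝ≥0∞ | ENNReal.ofReal q < W K p.1}) := by
    ext p
    simp only [G, mem_setOf_eq, mem_inter_iff, mem_iInter, mem_union]
    constructor
    · intro h
      refine ⟨h.le, fun q => ?_⟩
      rw [h]
      exact le_or_gt _ _
    · rintro ⟨h3, h4⟩
      apply le_antisymm h3
      by_contra hcon
      push Not at hcon
      obtain ⟨q, hq0, hq1, hq2⟩ := ENNReal.lt_iff_exists_rat_btwn.1 hcon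
      rcases h4 q with h5 | h5
      · exact absurd (lt_of_lt_of_le hq2 h5) (lt_irrefl _)
      · exact absurd (hq1.trans h5) (lt_irrefl _)
  rw [h2]
  apply IsGδ.inter h1.isGδ
  apply IsGδ.iInter
  intro q
  apply IsGδ.union
  · exact (isClosed_le continuous_snd continuous_const).isGδ
  · have : IsOpen {f : EndN | ENNReal.ofReal q < W K f} := (lsc_W K).isOpen_preimage _
    exact (this.preimage continuous_fst).isGδ

/-- the topology `T_K` -/
noncomputable def TT (K : Set ℕ) : TopologicalSpace EndN :=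
  TopologicalSpace.induced (fun f => (f, W K f)) inferInstance

/-- `End(ℕ,<)` is in bijection with the graph of `W`. -/
noncomputable def eG (K : Set ℕ) : EndN ≃ G K where
  toFun f := ⟨(f, W K f), rfl⟩
  invFun p := p.1.1
  left_inv f := rfl
  right_inv p := by
    apply Subtype.ext
    exact Prod.ext rfl p.2

lemma TT_polish (K : Set ℕ) : @PolishSpace EndN (TT K) := by
  haveI : PolishSpace (G K) := polish_of_isGδ (isGδ_G K)
  have h := (eG K).polishSpace_induced
  have h2 : TT K = TopologicalSpace.induced (eG K) instTopologicalSpaceSubtype := by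
    unfold TT
    rw [instTopologicalSpaceSubtype, induced_compose]
    rfl
  rw [h2]
  exact h

/-- type synonym carrying the topology `T_K` -/
def XK (_K : Set ℕ) : Type := EndN

noncomputable instance (K : Set ℕ) : TopologicalSpace (XK K) := TT K

/-- the identity map to `EndN` with the pointwise topology -/
def toE {K : Set ℕ} (f : XK K) : EndN := f

lemma cont_pair (K : Set ℕ) : Continuous (fun f : XK K => (toE f, W K (toE f))) := continuous_induced_dom

lemma cont_toE (K : Set ℕ) : Continuous (toE : XK K → EndN) := continuous_fst.comp (cont_pair K)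

lemma cont_W (K : Set ℕ) : Continuous (fun f : XK K => W K (toE f)) := continuous_snd.comp (cont_pair K)

lemma cont_mul : Continuous (fun p : EndN × EndN => p.1 * p.2) := by
  apply Continuous.subtype_mk
  apply continuous_pi
  intro m
  rw [continuous_iff_continuousAt]
  intro p0
  unfold ContinuousAt
  rw [nhds_discrete ℕ, tendsto_pure]
  have h1 : ∀ᶠ p : EndN × EndN in 𝓝 p0, ∀ k ≤ m, p.2.1 k = p0.2.1 k :=
    (continuous_snd.tendsto p0).eventually (ev p0.2 m)
  have h2 : ∀ᶠ p : EndN × EndN in 𝓝 p0, ∀ k ≤ p0.2.1 m, p.1.1 k = p0.1.1 k :=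
    (continuous_fst.tendsto p0).eventually (ev p0.1 (p0.2.1 m))
  filter_upwards [h1, h2] with p hp1 hp2
  simp only [Function.comp]
  rw [hp1 m le_rfl, hp2 _ le_rfl]

lemma cont_V (K : Set ℕ) (p0 : XK K × XK K) (hf : W K (toE p0.1) ≠ ∞) :
    Tendsto (fun p : XK K × XK K => V K (toE p.1) (toE p.2)) (𝓝 p0) (𝓝 (V K (toE p0.1) (toE p0.2))) := by
  classical
  have hev : ∀ N, ∀ᶠ p : XK K × XK K in 𝓝 p0, (∀ m ≤ N, (toE p.1).1 m = (toE p0.1).1 m) ∧
      (∀ m ≤ N, (toE p.2).1 m = (toE p0.2).1 m) := by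
    intro N
    have h1 : ∀ᶠ p : XK K × XK K in 𝓝 p0, ∀ m ≤ N, (toE p.1).1 m = (toE p0.1).1 m :=
      (((cont_toE K).comp continuous_fst).tendsto p0).eventually (ev (toE p0.1) N)
    have h2 : ∀ᶠ p : XK K × XK K in 𝓝 p0, ∀ m ≤ N, (toE p.2).1 m = (toE p0.2).1 m :=
      (((cont_toE K).comp continuous_snd).tendsto p0).eventually (ev (toE p0.2) N)
    exact h1.and h2
  have hterm : ∀ N, ∀ p : XK K × XK K, (∀ m ≤ N, (toE p.1).1 m = (toE p0.1).1 m) →
      (∀ m ≤ N, (toE p.2).1 m = (toE p0.2).1 m) → ∀ m ≤ N,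
      (if m ∈ range (toE p.2).1 then 0 else w K ((toE p.1).1 m)) =
      (if m ∈ range (toE p0.2).1 then 0 else w K ((toE p0.1).1 m)) := by
    intro N p h1 h2 m hm
    have := range_congr h2 (n := m) hm
    simp only [this, h1 m hm]
  rw [tendsto_order]
  constructor
  · intro c hc
    unfold V at hc
    rw [ENNReal.tsum_eq_iSup_sum, lt_iSup_iff] at hc
    obtain ⟨s, hs⟩ := hc
    filter_upwards [hev (s.sup id)] with p hp
    refine lt_of_lt_of_le hs ?_
    have : ∑ m ∈ s, (if m ∈ range (toE p0.2).1 then 0 else w K ((toE p0.1).1 m)) =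
        ∑ m ∈ s, (if m ∈ range (toE p.2).1 then 0 else w K ((toE p.1).1 m)) := by
      apply Finset.sum_congr rfl
      intro m hm
      exact (hterm _ p hp.1 hp.2 m (Finset.le_sup (f := id) hm)).symm
    rw [this]
    exact ENNReal.sum_le_tsum s
  · intro c hc
    by_cases hh : W K (toE p0.2) = ∞
    · rw [W_top K _ _ hf hh] at hc
      exact absurd hc (not_lt.2 le_top)
    obtain ⟨r, hr0, hr⟩ := ENNReal.lt_iff_exists_add_pos_lt.1 hc
    -- partial sums of W at h0
    have hlim : Tendsto (fun N => ∑ m ∈ Finset.range N, (if m ∈ range (toE p0.2).1 then 0 else w K m))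
        atTop (𝓝 (W K (toE p0.2))) := ENNReal.tendsto_nat_tsum _
    have hlim2 : Tendsto (fun N => (∑ m ∈ Finset.range N, (if m ∈ range (toE p0.2).1 then 0 else w K m)) + r)
        atTop (𝓝 (W K (toE p0.2) + r)) := hlim.add_const _
    have hlt : W K (toE p0.2) < W K (toE p0.2) + r :=
      ENNReal.lt_add_right hh (by exact_mod_cast hr0.ne')
    obtain ⟨N, hN⟩ := ((tendsto_order.1 hlim2).1 _ hlt).exists
    have hW : ∀ᶠ p : XK K × XK K in 𝓝 p0, W K (toE p.2) <
        (∑ m ∈ Finset.range N, (if m ∈ range (toE p0.2).1 then 0 else w K m)) + r :=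
      (tendsto_order.1 (((cont_W K).comp continuous_snd).tendsto p0)).2 _ hN
    filter_upwards [hW, hev N] with p hp1 hp2
    have hP : ∑ m ∈ Finset.range N, (if m ∈ range (toE p0.2).1 then 0 else w K m) =
        ∑ m ∈ Finset.range N, (if m ∈ range (toE p.2).1 then 0 else w K m) := by
      apply Finset.sum_congr rfl
      intro m hm
      have := range_congr hp2.2 (n := m) (Finset.mem_range.1 hm).le
      simp only [this]
    have hQ : ∑ m ∈ Finset.range N, (if m ∈ range (toE p0.2).1 then 0 else w K ((toE p0.1).1 m)) =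
        ∑ m ∈ Finset.range N, (if m ∈ range (toE p.2).1 then 0 else w K ((toE p.1).1 m)) := by
      apply Finset.sum_congr rfl
      intro m hm
      exact (hterm _ p hp2.1 hp2.2 m (Finset.mem_range.1 hm).le).symm
    have hineq : V K (toE p.1) (toE p.2) + ∑ m ∈ Finset.range N, (if m ∈ range (toE p.2).1 then 0 else w K m)
        ≤ ∑ m ∈ Finset.range N, (if m ∈ range (toE p.2).1 then 0 else w K ((toE p.1).1 m)) + W K (toE p.2) := by
      have conv : ∀ F : ℕ → ℝ≥0∞, ∑ m ∈ Finset.range N, F m = ∑' m, (if m < N then F m else 0) := by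
        intro F
        rw [tsum_eq_sum (s := Finset.range N)]
        · apply Finset.sum_congr rfl
          intro m hm
          rw [if_pos (Finset.mem_range.1 hm)]
        · intro m hm
          rw [if_neg]
          simpa using hm
      rw [conv, conv]
      unfold V W
      rw [← ENNReal.tsum_add, ← ENNReal.tsum_add]
      apply ENNReal.tsum_le_tsum
      intro m
      by_cases hm : m < N
      · rw [if_pos hm, if_pos hm]
      · rw [if_neg hm, if_neg hm, add_zero, zero_add]
        split_ifs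
        · exact le_rfl
        · exact w_anti K (le_apply _ m)
    have hPfin : ∑ m ∈ Finset.range N, (if m ∈ range (toE p.2).1 then 0 else w K m) ≠ ∞ := by
      apply (ENNReal.sum_ne_top).2
      intro m _
      split_ifs
      · simp
      · exact w_ne_top K m
    have hQle : ∑ m ∈ Finset.range N, (if m ∈ range (toE p.2).1 then 0 else w K ((toE p.1).1 m)) ≤
        V K (toE p0.1) (toE p0.2) := by
      rw [← hQ]
      exact ENNReal.sum_le_tsum _
    rw [hP] at hp1
    have h5 : V K (toE p.1) (toE p.2) + ∑ m ∈ Finset.range N, (if m ∈ range (toE p.2).1 then 0 else w K m)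
        < (V K (toE p0.1) (toE p0.2) + r) + ∑ m ∈ Finset.range N, (if m ∈ range (toE p.2).1 then 0 else w K m) := by
      refine lt_of_le_of_lt hineq ?_
      have hfin : ∑ m ∈ Finset.range N, (if m ∈ range (toE p.2).1 then 0 else w K ((toE p.1).1 m)) ≠ ∞ := by
        apply (ENNReal.sum_ne_top).2
        intro m _
        split_ifs
        · simp
        · exact w_ne_top K _
      calc _ < ∑ m ∈ Finset.range N, (if m ∈ range (toE p.2).1 then 0 else w K ((toE p.1).1 m)) +
              ((∑ m ∈ Finset.range N, (if m ∈ range (toE p.2).1 then 0 else w K m)) + r) :=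
            (ENNReal.add_lt_add_iff_left hfin).2 hp1
        _ ≤ V K (toE p0.1) (toE p0.2) + ((∑ m ∈ Finset.range N, (if m ∈ range (toE p.2).1 then 0 else w K m)) + r) := by
            gcongr
        _ = _ := by ring
    exact ((ENNReal.add_lt_add_iff_right hPfin).1 h5).trans hr

/-- multiplication on the type synonym -/
def mulX {K : Set ℕ} (p : XK K × XK K) : XK K := toE p.1 * toE p.2

lemma TT_mul (K : Set ℕ) : Continuous (mulX : XK K × XK K → XK K) := by
  apply continuous_induced_rng.2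
  have ha : Continuous (fun p : XK K × XK K => toE p.1) := (cont_toE K).comp continuous_fst
  have hb : Continuous (fun p : XK K × XK K => toE p.2) := (cont_toE K).comp continuous_snd
  have h1 : Continuous (fun p : XK K × XK K => (toE p.1 * toE p.2 : EndN)) :=
    Continuous.comp (g := fun q : EndN × EndN => q.1 * q.2)
      (f := fun p : XK K × XK K => ((toE p.1 : EndN), (toE p.2 : EndN))) cont_mul
      (Continuous.prodMk (f := fun p : XK K × XK K => (toE p.1 : EndN)) (g := fun p : XK K × XK K => (toE p.2 : EndN)) ha hb)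
  have h2 : Continuous (fun p : XK K × XK K => W K (toE p.1 * toE p.2)) := by
    rw [continuous_iff_continuousAt]
    intro p0
    unfold ContinuousAt
    simp only [W_mul]
    have hWf : Tendsto (fun p : XK K × XK K => W K (toE p.1)) (𝓝 p0) (𝓝 (W K (toE p0.1))) :=
      ((cont_W K).comp continuous_fst).tendsto p0
    by_cases hf : W K (toE p0.1) = ∞
    · rw [hf] at hWf ⊢
      rw [top_add]
      exact tendsto_nhds_top_mono' hWf (fun p => le_self_add)
    · exact hWf.add (cont_V K p0 hf)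
  exact h1.prodMk h2

lemma TT_isPolishSemigroupTopology (K : Set ℕ) : IsPolishSemigroupTopology (TT K) :=
  ⟨TT_polish K, TT_mul K⟩

/-! ### the separating maps -/

/-- start of the `k`-th block -/
def Nk (k : ℕ) : ℕ := 2 ^ (2 * 4 ^ (k+1))

/-- number of omitted points in the `k`-th block -/
def ck (k : ℕ) : ℕ := 2 ^ (4 ^ k)

/-- omitted points -/
def AK (K : Set ℕ) : Set ℕ := {n | ∃ k ∈ K, ∃ t < ck k, n = Nk k + 2 * t}

lemma log_block {k t : ℕ} (ht : t < ck k) : Nat.log 2 (Nk k + 2 * t) = 2 * 4 ^ (k+1) := by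
  have h1 : 2 * ck k ≤ Nk k := by
    unfold ck Nk
    rw [← pow_succ']
    apply Nat.pow_le_pow_right (by norm_num)
    have : 1 ≤ 4 ^ k := Nat.one_le_pow _ _ (by norm_num)
    rw [pow_succ]
    omega
  rw [Nat.log_eq_iff (Or.inl (by positivity))]
  constructor
  · change Nk k ≤ _; omega
  · have : Nk k + 2 * t < 2 * Nk k := by omega
    calc Nk k + 2 * t < 2 * Nk k := this
      _ = 2 ^ (2 * 4 ^ (k+1) + 1) := by unfold Nk; rw [pow_succ]; ring

lemma w_block (K : Set ℕ) {k t : ℕ} (ht : t < ck k) :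
    w K (Nk k + 2 * t) = (2⁻¹ : ℝ≥0∞) ^ (a K (4 ^ (k+1))) := by
  unfold w
  rw [log_block ht]
  congr 2
  omega

open Classical in
lemma a_lower (K : Set ℕ) {k : ℕ} (hk : k ∈ K) : 3 * 4 ^ k ≤ a K (4 ^ (k+1)) := by
  unfold a
  have h1 : Finset.Ico (4 ^ k) (4 ^ (k+1)) ⊆ (Finset.range (4 ^ (k+1))).filter (fun j => Nat.log 4 j ∈ K) := by
    intro j hj
    rw [Finset.mem_Ico] at hj
    rw [Finset.mem_filter, Finset.mem_range]
    refine ⟨hj.2, ?_⟩
    have h0 : 1 ≤ 4 ^ k := Nat.one_le_pow _ _ (by norm_num)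
    have : Nat.log 4 j = k := by
      rw [Nat.log_eq_iff (Or.inr ⟨by norm_num, by omega⟩)]
      exact hj
    rw [this]; exact hk
  have h2 := Finset.card_le_card h1
  rw [Nat.card_Ico] at h2
  have h3 : 4 ^ (k+1) = 4 * 4 ^ k := by ring
  omega

open Classical in
lemma a_upper (K : Set ℕ) {k : ℕ} (hk : k ∉ K) : a K (4 ^ (k+1)) ≤ 4 ^ k := by
  unfold a
  have h1 : (Finset.range (4 ^ (k+1))).filter (fun j => Nat.log 4 j ∈ K) ⊆ Finset.range (4 ^ k) := by
    intro j hj
    rw [Finset.mem_filter, Finset.mem_range] at hj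
    rw [Finset.mem_range]
    by_contra hcon
    push Not at hcon
    have h0 : 1 ≤ 4 ^ k := Nat.one_le_pow _ _ (by norm_num)
    have : Nat.log 4 j = k := by
      rw [Nat.log_eq_iff (Or.inr ⟨by norm_num, by omega⟩)]
      exact ⟨hcon, hj.1⟩
    rw [this] at hj
    exact hk hj.2
  have h2 := Finset.card_le_card h1
  rwa [Finset.card_range] at h2

lemma infinite_compl (K : Set ℕ) : ((AK K)ᶜ : Set ℕ).Infinite := by
  apply Set.infinite_of_injective_forall_mem (f := fun n : ℕ => 2 * n + 1)
  · intro m n h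
    simp only at h
    omega
  · rintro n ⟨k, _, t, _, h⟩
    have h2 : Nk k = 2 * 2 ^ (2 * 4 ^ (k+1) - 1) := by
      unfold Nk
      rw [← pow_succ']
      congr 1
      have : 1 ≤ 4 ^ (k+1) := Nat.one_le_pow _ _ (by norm_num)
      omega
    omega

open Classical in
/-- increasing enumeration of the complement of `AK K` -/
noncomputable def fK (K : Set ℕ) : EndN :=
  haveI := (infinite_compl K).to_subtype
  ⟨Nat.orderEmbeddingOfSet (AK K)ᶜ, (Nat.orderEmbeddingOfSet (AK K)ᶜ).strictMono⟩

open Classical in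
lemma range_fK (K : Set ℕ) : range (fK K).1 = (AK K)ᶜ := by
  haveI := (infinite_compl K).to_subtype
  exact Nat.orderEmbeddingOfSet_range _

open Classical in
lemma W_fK (K K' : Set ℕ) : W K' (fK K) = ∑' n, if n ∈ AK K then w K' n else 0 := by
  unfold W
  apply tsum_congr
  intro n
  rw [range_fK]
  by_cases h : n ∈ AK K
  · rw [if_neg (by simpa using h), if_pos h]
  · rw [if_pos (by simpa using h), if_neg h]

lemma W_fK_fin (K : Set ℕ) : W K (fK K) ≠ ∞ := by
  classical
  rw [W_fK]
  have h1 : ∑' n, (if n ∈ AK K then w K n else 0) ≤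
      ∑' k, ∑ t ∈ Finset.range (ck k), (if k ∈ K then w K (Nk k + 2*t) else 0) := by
    have h2 : ∀ k t, (if k ∈ K then w K (Nk k + 2*t) else 0) =
        ∑' n, (if n = Nk k + 2 * t ∧ k ∈ K then w K n else 0) := by
      intro k t
      rw [tsum_eq_single (Nk k + 2*t)]
      · simp
      · intro n hn
        rw [if_neg (fun h => hn h.1)]
    have h3 : ∑' k, ∑ t ∈ Finset.range (ck k), (if k ∈ K then w K (Nk k + 2*t) else 0) =
        ∑' n, ∑' k, ∑ t ∈ Finset.range (ck k), (if n = Nk k + 2 * t ∧ k ∈ K then w K n else 0) := by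
      rw [ENNReal.tsum_comm]
      apply tsum_congr
      intro k
      rw [Summable.tsum_finsetSum (fun _ _ => ENNReal.summable)]
      apply Finset.sum_congr rfl
      intro t _
      exact h2 k t
    rw [h3]
    apply ENNReal.tsum_le_tsum
    intro n
    split_ifs with hn
    · obtain ⟨k, hk, t, ht, rfl⟩ := hn
      refine le_trans ?_ (ENNReal.le_tsum k)
      refine le_trans ?_ (Finset.single_le_sum (f := fun t' => if Nk k + 2*t = Nk k + 2 * t' ∧ k ∈ K then w K (Nk k + 2*t) else 0) (fun _ _ => zero_le) (Finset.mem_range.2 ht))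
      simp [hk]
    · exact zero_le
  refine ne_top_of_le_ne_top ?_ h1
  have h4 : ∑' k, ∑ t ∈ Finset.range (ck k), (if k ∈ K then w K (Nk k + 2*t) else 0) ≤
      ∑' k : ℕ, (2⁻¹ : ℝ≥0∞) ^ k := by
    apply ENNReal.tsum_le_tsum
    intro k
    by_cases hk : k ∈ K
    · simp only [if_pos hk]
      calc ∑ t ∈ Finset.range (ck k), w K (Nk k + 2*t)
          ≤ ∑ t ∈ Finset.range (ck k), (2⁻¹ : ℝ≥0∞) ^ (3 * 4 ^ k) := by
            apply Finset.sum_le_sum
            intro t ht
            rw [w_block K (Finset.mem_range.1 ht)]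
            exact half_pow_anti (a_lower K hk)
        _ = (ck k : ℝ≥0∞) * (2⁻¹ : ℝ≥0∞) ^ (3 * 4 ^ k) := by
            rw [Finset.sum_const, Finset.card_range, nsmul_eq_mul]
        _ = (2⁻¹ : ℝ≥0∞) ^ (2 * 4 ^ k) := by
            unfold ck
            rw [show 3 * 4 ^ k = 4 ^ k + 2 * 4 ^ k by ring, pow_add, ← mul_assoc]
            push_cast
            rw [← mul_pow, ENNReal.mul_inv_cancel (by simp) (by simp), one_pow, one_mul]
        _ ≤ (2⁻¹ : ℝ≥0∞) ^ k := by
            apply half_pow_anti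
            have : k < 4 ^ k := Nat.lt_pow_self (by norm_num)
            omega
    · simp [hk]
  refine ne_top_of_le_ne_top ?_ h4
  rw [ENNReal.tsum_geometric]
  simp

lemma W_fK_top (K K' : Set ℕ) (h : (K \ K').Infinite) : W K' (fK K) = ∞ := by
  classical
  rw [W_fK]
  by_contra hfin
  have h1 := ENNReal.tendsto_sum_nat_add (fun n => if n ∈ AK K then w K' n else 0) hfin
  have h2 : ∀ᶠ N : ℕ in atTop, ∑' n, (if n + N ∈ AK K then w K' (n + N) else 0) < 1 :=
    (tendsto_order.1 h1).2 1 (by simp)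
  obtain ⟨N, hN⟩ := h2.exists
  obtain ⟨k, hk, hkN⟩ := h.exists_gt N
  have h3 : N ≤ Nk k := by
    have h4 : k < 4 ^ (k+1) := lt_trans (Nat.lt_succ_self k) (Nat.lt_pow_self (by norm_num))
    have h5 : 4 ^ (k+1) < 2 ^ (4 ^ (k+1)) := Nat.lt_pow_self (by norm_num)
    have h6 : 2 ^ (4 ^ (k+1)) ≤ Nk k := by
      unfold Nk
      exact Nat.pow_le_pow_right (by norm_num) (by omega)
    omega
  have h7 : (1 : ℝ≥0∞) ≤ ∑' n, (if n + N ∈ AK K then w K' (n + N) else 0) := by
    calc (1 : ℝ≥0∞) = (ck k : ℝ≥0∞) * (2⁻¹ : ℝ≥0∞) ^ (4 ^ k) := by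
          unfold ck
          push_cast
          rw [← mul_pow, ENNReal.mul_inv_cancel (by simp) (by simp), one_pow]
      _ = ∑ t ∈ Finset.range (ck k), (2⁻¹ : ℝ≥0∞) ^ (4 ^ k) := by
          rw [Finset.sum_const, Finset.card_range, nsmul_eq_mul]
      _ ≤ ∑ t ∈ Finset.range (ck k), w K' (Nk k + 2 * t) := by
          apply Finset.sum_le_sum
          intro t ht
          rw [w_block K' (Finset.mem_range.1 ht)]
          exact half_pow_anti (a_upper K' hk.2)
      _ = ∑ t ∈ Finset.range (ck k), (fun n => if n + N ∈ AK K then w K' (n + N) else 0) ((Nk k - N) + 2 * t) := by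
          apply Finset.sum_congr rfl
          intro t ht
          have e1 : (Nk k - N) + 2 * t + N = Nk k + 2 * t := by omega
          simp only [e1]
          rw [if_pos ⟨k, hk.1, t, Finset.mem_range.1 ht, rfl⟩]
      _ = ∑ n ∈ (Finset.range (ck k)).image (fun t => (Nk k - N) + 2 * t), (if n + N ∈ AK K then w K' (n + N) else 0) := by
          rw [Finset.sum_image]
          intro x _ y _ hxy
          simp only at hxy
          omega
      _ ≤ _ := ENNReal.sum_le_tsum _
  exact absurd hN (not_lt.2 h7)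

/-! ### an uncountable almost disjoint family -/

/-- codes of the finite initial segments of `α` -/
def Kα (α : ℕ → Bool) : Set ℕ := {k | ∃ n, k = Encodable.encode (List.ofFn (fun i : Fin n => α i))}

lemma Kα_diff {α β : ℕ → Bool} (h : α ≠ β) : (Kα α \ Kα β).Infinite := by
  obtain ⟨m, hm⟩ := Function.ne_iff.1 h
  apply Set.infinite_of_injective_forall_mem
    (f := fun n : ℕ => Encodable.encode (List.ofFn (fun i : Fin (m + 1 + n) => α i)))
  · intro x y hxy
    have h1 := Encodable.encode_injective hxy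
    have h2 := congrArg List.length h1
    simp only [List.length_ofFn] at h2
    omega
  · intro n
    refine ⟨⟨_, rfl⟩, ?_⟩
    rintro ⟨n', hn'⟩
    have h1 := Encodable.encode_injective hn'
    have h2 := congrArg List.length h1
    simp only [List.length_ofFn] at h2
    subst h2
    have h3 := List.ofFn_injective h1
    have h4 := congrFun h3 ⟨m, by omega⟩
    exact hm h4

/-- **Q1.** `End(ℕ,<)` has no finest Polish semigroup topology. -/
theorem result : ¬ ∃ T : TopologicalSpace EndN, IsPolishSemigroupTopology T ∧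
    ∀ T' : TopologicalSpace EndN, IsPolishSemigroupTopology T' →
      ∀ U : Set EndN, IsOpen[T'] U → IsOpen[T] U := by
  rintro ⟨T, hT, hfin⟩
  have hopen : ∀ α : ℕ → Bool, IsOpen[T] {f : EndN | W (Kα α) f < ∞} := by
    intro α
    apply hfin (TT (Kα α)) (TT_isPolishSemigroupTopology _)
    have : IsOpen {f : XK (Kα α) | W (Kα α) (toE f) < ∞} := isOpen_lt (cont_W _) continuous_const
    exact this
  letI := T
  haveI : PolishSpace EndN := hT.1
  have hb := TopologicalSpace.isBasis_countableBasis EndN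
  have hex : ∀ α : ℕ → Bool, ∃ B ∈ TopologicalSpace.countableBasis EndN,
      fK (Kα α) ∈ B ∧ B ⊆ {f : EndN | W (Kα α) f < ∞} := by
    intro α
    exact hb.exists_subset_of_mem_open (lt_top_iff_ne_top.2 (W_fK_fin _)) (hopen α)
  choose B hB1 hB2 hB3 using hex
  have hinj : Function.Injective (fun α => (⟨B α, hB1 α⟩ : TopologicalSpace.countableBasis EndN)) := by
    intro α β hαβ
    by_contra hne
    have h1 : B α = B β := congrArg Subtype.val hαβ
    have h2 : fK (Kα β) ∈ B α := h1 ▸ hB2 β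
    have h3 := hB3 α h2
    have h4 : W (Kα α) (fK (Kα β)) = ∞ := W_fK_top _ _ (Kα_diff (Ne.symm hne))
    rw [mem_setOf_eq, h4] at h3
    exact lt_irrefl _ h3
  haveI : Countable (TopologicalSpace.countableBasis EndN) :=
    (TopologicalSpace.countable_countableBasis EndN).to_subtype
  have hc : Countable (ℕ → Bool) := hinj.countable
  have : Countable (Set ℕ) := by
    classical
    exact (Function.Injective.countable (f := fun s : Set ℕ => (fun n => decide (n ∈ s))) (by
      intro s t hst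
      ext n
      have := congrFun hst n
      simpa using this))
  obtain ⟨g, hg⟩ := exists_surjective_nat (Set ℕ)
  exact Function.cantor_surjective g hg

end Pool.Agent.Results.MP_0c7c8f_al.NoFinest
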